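import Pool.Agent.H94.LP3.H74.BP.Nef
import Pool.Agent.H94.LP3.M62

/-!
# Big nef classes in the plane
-/

namespace Pool.Agent.H74.BP

open Finset Pool.Agent.H18.Cub Pool.Agent.H18.Pr Pool.Agent.H18.Fat Pool.Agent.H18.Ub Pool.Agent.H18.Nef

variable {n : ℕ}

/-- Nef classes supported on at most nine points. -/
theorem nine_zero : ∃ K : ℕ, ∀ (n d : ℕ) (m : Fin n → ℕ) (J : Finset (Fin n)), J.card ≤ 9 →
    (∀ i, i ∉ J → m i = 0) → PosE K d m → ∑ i ∈ J, m i + K ≤ 3 * d →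
    ForGeneralPoints 2 n fun p => ImposesMaximalConditions 2 d p m := by
  obtain ⟨K, E, H⟩ := Pool.Agent.H18.Ta.plane
  refine ⟨K, fun n d m J hJ hsmall hpos h9 => ?_⟩
  obtain ⟨d', m', h1, h2, h3, h4, h5, h6⟩ := reduce9 d m hpos hsmall
  have h7 := H 1 le_rfl n d' m' J hJ (fun i hi => by rw [h3 i hi]; exact Nat.zero_le _) h4
    (by rw [one_pow, Nat.mul_one]; exact h2.deg) (fun _ => by rw [one_pow, Nat.mul_one]; omega)
  refine (cremona_final (by norm_num) h1 h7).mono fun p hp => ?_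
  have h8 := hp.2
  by_contra hcon
  have h9 := (h8.1 hcon).2
  have h10 : virt d' m' = ((d' + 2).choose 2 : ℤ) - ∑ i, ((m' i + 2 - 1).choose 2 : ℤ) := rfl
  have h11 : virt d m = ((d + 2).choose 2 : ℤ) - ∑ i, ((m i + 2 - 1).choose 2 : ℤ) := rfl
  rw [← h10, ← h11, h5] at h9
  exact lt_irrefl _ h9

end Pool.Agent.H74.BP
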